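import Mathlib

/-!
# MP_d3b3d4_nt: nonsingular cubic threefolds with a linear automorphism of prime order

Rational points from automorphisms. Tools: the symmetric trilinear form of a cubic form; a zero over a quadratic extension
gives a zero over the ground field (`quad`); scaling of the matrix (`scale`); eigenvectors are zeros of `f`.
-/

set_option autoImplicit false

namespace Pool.Agent.Results.MP_d3b3d4_nt.Automorphisms

open MvPolynomial Matrix

variable {k : Type} [Field k]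

/-! ### The symmetric trilinear form -/

/-- the cubic form with the coefficients `t` -/
noncomputable def tens (t : Fin 5 → Fin 5 → Fin 5 → k) : MvPolynomial (Fin 5) k :=
  ∑ i, ∑ j, ∑ l, C (t i j l) * (X i * X j * X l)

theorem tens_add (t t' : Fin 5 → Fin 5 → Fin 5 → k) :
    tens (fun i j l => t i j l + t' i j l) = tens t + tens t' := by
  unfold tens
  simp only [C_add, add_mul, Finset.sum_add_distrib]

theorem tens_smul (c : k) (t : Fin 5 → Fin 5 → Fin 5 → k) :
    tens (fun i j l => c * t i j l) = C c * tens t := by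
  unfold tens
  simp only [C_mul, mul_assoc, Finset.mul_sum]

theorem tens_swap1 (t : Fin 5 → Fin 5 → Fin 5 → k) :
    tens (fun i j l => t j i l) = tens t := by
  unfold tens
  rw [Finset.sum_comm]
  refine Finset.sum_congr rfl fun i _ => Finset.sum_congr rfl fun j _ =>
    Finset.sum_congr rfl fun l _ => ?_
  ring

theorem tens_swap2 (t : Fin 5 → Fin 5 → Fin 5 → k) :
    tens (fun i j l => t i l j) = tens t := by
  unfold tens
  refine Finset.sum_congr rfl fun i _ => ?_
  rw [Finset.sum_comm]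
  refine Finset.sum_congr rfl fun j _ => Finset.sum_congr rfl fun l _ => ?_
  ring

theorem exists_single {n : ℕ} {m : Fin 5 →₀ ℕ} (h : m.degree = n + 1) :
    ∃ i m', m = Finsupp.single i 1 + m' ∧ m'.degree = n := by
  have h1 : m ≠ 0 := by
    rintro rfl
    simp at h
  obtain ⟨i, hi⟩ := Finsupp.ne_iff.1 h1
  have hi' : 1 ≤ m i := Nat.one_le_iff_ne_zero.2 hi
  have hle : Finsupp.single i 1 ≤ m := by
    intro j
    by_cases hj : j = i
    · subst hj
      simpa using hi'
    · rw [Finsupp.single_eq_of_ne hj]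
      exact Nat.zero_le _
  refine ⟨i, m - Finsupp.single i 1, (add_tsub_cancel_of_le hle).symm, ?_⟩
  have h2 := congrArg Finsupp.degree (add_tsub_cancel_of_le hle)
  rw [map_add, Finsupp.degree_single, h] at h2
  omega

theorem exists_tens (f : MvPolynomial (Fin 5) k) (hf : f.IsHomogeneous 3) : ∃ t, f = tens t := by
  classical
  rw [f.as_sum]
  refine Finset.sum_induction _ (fun g => ∃ t, g = tens t) ?_ ?_ ?_
  · rintro _ _ ⟨t, rfl⟩ ⟨t', rfl⟩
    exact ⟨_, (tens_add t t').symm⟩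
  · refine ⟨fun _ _ _ => 0, ?_⟩
    simp [tens]
  · intro m hm
    have h1 : m.degree = 3 := by
      have := hf (mem_support_iff.1 hm)
      rwa [Finsupp.degree_eq_weight_one]
    obtain ⟨i, m1, rfl, h2⟩ := exists_single h1
    obtain ⟨j, m2, rfl, h3⟩ := exists_single h2
    obtain ⟨l, m3, rfl, h4⟩ := exists_single h3
    have h5 : m3 = 0 := (Finsupp.degree_eq_zero_iff m3).1 h4
    subst h5
    obtain ⟨c, hc⟩ : ∃ c, c = coeff (Finsupp.single i 1 + (Finsupp.single j 1 +
      (Finsupp.single l 1 + 0))) f := ⟨_, rfl⟩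
    rw [← hc]
    refine ⟨fun a b d => if a = i then if b = j then if d = l then c else 0 else 0 else 0, ?_⟩
    have e : (monomial (Finsupp.single i 1 + (Finsupp.single j 1 + (Finsupp.single l 1 + 0)))) c =
        C c * (X i * X j * X l : MvPolynomial (Fin 5) k) := by
      rw [X, X, X, monomial_mul, monomial_mul, C_mul_monomial, add_zero]
      simp only [mul_one, add_assoc]
    rw [e]
    unfold tens
    rw [Finset.sum_eq_single i, Finset.sum_eq_single j, Finset.sum_eq_single l]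
    · simp
    · intro b _ hb
      simp [hb]
    · simp
    · intro b _ hb
      simp [hb]
    · simp
    · intro b _ hb
      simp [hb]
    · simp

theorem exists_symm [CharZero k] (f : MvPolynomial (Fin 5) k) (hf : f.IsHomogeneous 3) :
    ∃ t : Fin 5 → Fin 5 → Fin 5 → k, (∀ i j l, t i j l = t j i l) ∧ (∀ i j l, t i j l = t i l j) ∧
      f = tens t := by
  obtain ⟨t, ht⟩ := exists_tens f hf
  have e1 : tens (fun i j l => t j i l) = f := by rw [tens_swap1 t, ht]
  have e2 : tens (fun i j l => t i l j) = f := by rw [tens_swap2 t, ht]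
  have e3 : tens (fun i j l => t j l i) = f :=
    (tens_swap1 (fun i j l => t i l j)).trans e2
  have e4 : tens (fun i j l => t l i j) = f :=
    (tens_swap2 (fun i j l => t j i l)).trans e1
  have e5 : tens (fun i j l => t l j i) = f :=
    (tens_swap1 (fun i j l => t l i j)).trans e4
  refine ⟨fun i j l => (1 / 6) * (t i j l + t j i l + t i l j + t j l i + t l i j + t l j i),
    fun i j l => by ring, fun i j l => by ring, ?_⟩
  rw [tens_smul (1 / 6) fun i j l => t i j l + t j i l + t i l j + t j l i + t l i j + t l j i]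
  rw [tens_add (fun i j l => t i j l + t j i l + t i l j + t j l i + t l i j),
    tens_add (fun i j l => t i j l + t j i l + t i l j + t j l i),
    tens_add (fun i j l => t i j l + t j i l + t i l j),
    tens_add (fun i j l => t i j l + t j i l), tens_add t, e1, e2, e3, e4, e5, ← ht]
  have h6 : (C (1 / 6 : k) : MvPolynomial (Fin 5) k) * C 6 = 1 := by
    rw [← C_mul, one_div, inv_mul_cancel₀ (by norm_num), C_1]
  have h7 : (C 6 : MvPolynomial (Fin 5) k) = 6 := by
    simp [map_ofNat]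
  linear_combination (-f) * h6 + (C (1 / 6 : k)) * f * h7

/-! ### The trilinear form over an extension field -/

variable {E : Type} [Field E] [Algebra k E]

/-- the trilinear form -/
noncomputable def tri (t : Fin 5 → Fin 5 → Fin 5 → k) (x y z : Fin 5 → E) : E :=
  ∑ i, ∑ j, ∑ l, algebraMap k E (t i j l) * (x i * y j * z l)

theorem aeval_tens (t : Fin 5 → Fin 5 → Fin 5 → k) (x : Fin 5 → E) :
    aeval x (tens t) = tri t x x x := by
  unfold tens tri
  simp [map_sum]

theorem tri_add_right (t : Fin 5 → Fin 5 → Fin 5 → k) (x y z w : Fin 5 → E) :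
    tri t x y (z + w) = tri t x y z + tri t x y w := by
  unfold tri
  simp only [Pi.add_apply, mul_add, Finset.sum_add_distrib]

theorem tri_smul_right (t : Fin 5 → Fin 5 → Fin 5 → k) (x y z : Fin 5 → E) (c : E) :
    tri t x y (c • z) = c * tri t x y z := by
  unfold tri
  simp only [Pi.smul_apply, smul_eq_mul, Finset.mul_sum]
  refine Finset.sum_congr rfl fun i _ => Finset.sum_congr rfl fun j _ =>
    Finset.sum_congr rfl fun l _ => ?_
  ring

theorem tri_swap1 {t : Fin 5 → Fin 5 → Fin 5 → k} (h : ∀ i j l, t i j l = t j i l)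
    (x y z : Fin 5 → E) : tri t x y z = tri t y x z := by
  unfold tri
  rw [Finset.sum_comm]
  refine Finset.sum_congr rfl fun i _ => Finset.sum_congr rfl fun j _ =>
    Finset.sum_congr rfl fun l _ => ?_
  rw [h j i l]
  ring

theorem tri_swap2 {t : Fin 5 → Fin 5 → Fin 5 → k} (h : ∀ i j l, t i j l = t i l j)
    (x y z : Fin 5 → E) : tri t x y z = tri t x z y := by
  unfold tri
  refine Finset.sum_congr rfl fun i _ => ?_
  rw [Finset.sum_comm]
  refine Finset.sum_congr rfl fun j _ => Finset.sum_congr rfl fun l _ => ?_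
  rw [h i l j]
  ring

/-- the partial derivatives -/
theorem aeval_pderiv (t : Fin 5 → Fin 5 → Fin 5 → k) (x : Fin 5 → E) (i : Fin 5) :
    aeval x (pderiv i (tens t)) = tri t (Pi.single i 1) x x + tri t x (Pi.single i 1) x +
      tri t x x (Pi.single i 1) := by
  unfold tens tri
  simp only [map_sum, Derivation.leibniz, pderiv_C, pderiv_X, smul_eq_mul, map_add, map_mul,
    aeval_X, aeval_C, mul_zero, add_zero]
  simp only [← Finset.sum_add_distrib]
  refine Finset.sum_congr rfl fun a _ => Finset.sum_congr rfl fun b _ =>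
    Finset.sum_congr rfl fun d _ => ?_
  have e : ∀ a : Fin 5, aeval x (Pi.single (M := fun _ => MvPolynomial (Fin 5) k) i 1 a) =
      (Pi.single (M := fun _ => E) i 1 a) := by
    intro a
    by_cases h : a = i
    · subst h
      simp
    · simp [h]
  rw [e, e, e]
  ring

theorem tri_map (t : Fin 5 → Fin 5 → Fin 5 → k) (x y z : Fin 5 → k) :
    tri (E := E) t (fun i => algebraMap k E (x i)) (fun i => algebraMap k E (y i))
      (fun i => algebraMap k E (z i)) = algebraMap k E (tri t x y z) := by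
  unfold tri
  simp [map_sum]

/-- `t` is symmetric -/
def Sym (t : Fin 5 → Fin 5 → Fin 5 → k) : Prop :=
  (∀ i j l, t i j l = t j i l) ∧ ∀ i j l, t i j l = t i l j

theorem tri_exp {t : Fin 5 → Fin 5 → Fin 5 → k} (h : Sym t) (x y : Fin 5 → E) :
    tri t (x + y) (x + y) (x + y) =
      tri t x x x + 3 * tri t x x y + 3 * tri t x y y + tri t y y y := by
  obtain ⟨h1, h2⟩ := h
  have e1 : ∀ a b c d : Fin 5 → E, tri t a (b + c) d = tri t a b d + tri t a c d := by
    intro a b c d
    rw [tri_swap2 h2, tri_add_right, tri_swap2 h2 a d b, tri_swap2 h2 a d c]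
  have e2 : ∀ a b c d : Fin 5 → E, tri t (a + b) c d = tri t a c d + tri t b c d := by
    intro a b c d
    rw [tri_swap1 h1, e1, tri_swap1 h1 c a, tri_swap1 h1 c b]
  rw [e2, e1, e1, tri_add_right, tri_add_right, tri_add_right, tri_add_right,
    tri_swap1 h1 y x x, tri_swap1 h1 y x y, tri_swap2 h2 x y x,
    tri_swap2 h2 y y x, tri_swap1 h1 y x y]
  ring

/-- the trilinear form from the cubic form -/
theorem tri_polar {t : Fin 5 → Fin 5 → Fin 5 → k} (h : Sym t) (x y z : Fin 5 → E) :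
    6 * tri t x y z = tri t (x + y + z) (x + y + z) (x + y + z) - tri t (x + y) (x + y) (x + y) -
      tri t (x + z) (x + z) (x + z) - tri t (y + z) (y + z) (y + z) + tri t x x x + tri t y y y +
      tri t z z z := by
  have e1 : ∀ a b c d : Fin 5 → E, tri t a (b + c) d = tri t a b d + tri t a c d := by
    intro a b c d
    rw [tri_swap2 h.2, tri_add_right, tri_swap2 h.2 a d b, tri_swap2 h.2 a d c]
  have e2 : ∀ a b c d : Fin 5 → E, tri t (a + b) c d = tri t a c d + tri t b c d := by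
    intro a b c d
    rw [tri_swap1 h.1, e1, tri_swap1 h.1 c a, tri_swap1 h.1 c b]
  rw [tri_exp h (x + y) z, tri_exp h x y, tri_exp h x z, tri_exp h y z, e2 x y (x + y) z, e1, e1,
    e2 x y z z, tri_swap1 h.1 y x z]
  ring

/-- a linear map which preserves the cubic form preserves the trilinear form -/
theorem tri_inv [CharZero E] {t : Fin 5 → Fin 5 → Fin 5 → k} (h : Sym t)
    (φ : (Fin 5 → E) →ₗ[E] (Fin 5 → E)) (hφ : ∀ x, tri t (φ x) (φ x) (φ x) = tri t x x x)
    (x y z : Fin 5 → E) : tri t (φ x) (φ y) (φ z) = tri t x y z := by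
  have h1 := tri_polar h (φ x) (φ y) (φ z)
  have h2 := tri_polar h x y z
  rw [← map_add, ← map_add, ← map_add, ← map_add] at h1
  simp only [hφ] at h1
  have h3 : (6 : E) ≠ 0 := by norm_num
  exact mul_left_cancel₀ h3 (h1.trans h2.symm)

/-! ### Descent through a quadratic extension -/

theorem quad [CharZero k] (f : MvPolynomial (Fin 5) k) (hf : f.IsHomogeneous 3) (α : E) (s t : k)
    (hα : α ^ 2 = algebraMap k E s * α + algebraMap k E t) (a b : Fin 5 → k)
    (hv : (fun i => algebraMap k E (a i) + α * algebraMap k E (b i)) ≠ 0)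
    (h0 : aeval (fun i => algebraMap k E (a i) + α * algebraMap k E (b i)) f = 0) :
    ∃ x : Fin 5 → k, x ≠ 0 ∧ aeval x f = 0 := by
  obtain ⟨τ, hτ1, hτ2, rfl⟩ := exists_symm f hf
  have hτ : Sym τ := ⟨hτ1, hτ2⟩
  -- the values on the line
  have key : ∀ {F : Type} [Field F] [Algebra k F] (S : F),
      aeval (fun i => algebraMap k F (a i) + S * algebraMap k F (b i)) (tens τ) =
        algebraMap k F (tri τ a a a) + 3 * S * algebraMap k F (tri τ a a b) +
          3 * S ^ 2 * algebraMap k F (tri τ a b b) + S ^ 3 * algebraMap k F (tri τ b b b) := by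
    intro F _ _ S
    have e : (fun i => algebraMap k F (a i) + S * algebraMap k F (b i)) =
        (fun i => algebraMap k F (a i)) + S • (fun i => algebraMap k F (b i)) := rfl
    have e1 : ∀ x y z : Fin 5 → F, tri τ x (S • y) z = S * tri τ x y z := by
      intro x y z
      rw [tri_swap2 hτ2, tri_smul_right, tri_swap2 hτ2 x z y]
    have e2 : ∀ x y z : Fin 5 → F, tri τ (S • x) y z = S * tri τ x y z := by
      intro x y z
      rw [tri_swap1 hτ1, e1, tri_swap1 hτ1 y x z]
    rw [aeval_tens, e, tri_exp hτ, e1, e2]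
    simp only [tri_smul_right, e1, tri_map]
    ring
  obtain ⟨c0, hc0⟩ : ∃ c, c = tri τ a a a := ⟨_, rfl⟩
  obtain ⟨c1, hc1⟩ : ∃ c, c = tri τ a a b := ⟨_, rfl⟩
  obtain ⟨c2, hc2⟩ : ∃ c, c = tri τ a b b := ⟨_, rfl⟩
  obtain ⟨c3, hc3⟩ : ∃ c, c = tri τ b b b := ⟨_, rfl⟩
  rw [← hc0, ← hc1, ← hc2, ← hc3] at key
  have hk := key α
  rw [h0] at hk
  by_cases hr : ∃ β, algebraMap k E β = α
  · obtain ⟨β, rfl⟩ := hr
    refine ⟨fun i => a i + β * b i, fun h1 => hv ?_, ?_⟩
    · funext i
      have := congrFun h1 i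
      simp only [Pi.zero_apply] at this ⊢
      rw [← map_mul, ← map_add, this, map_zero]
    · apply (algebraMap k E).injective
      have h1 := key (F := k) β
      simp only [Algebra.algebraMap_self, RingHom.id_apply] at h1
      rw [h1, map_zero, hk]
      simp only [map_add, map_mul, map_pow, map_ofNat]
  · have hA : algebraMap k E (c0 + 3 * c2 * t + c3 * s * t) +
        α * algebraMap k E (3 * c1 + 3 * c2 * s + c3 * (s ^ 2 + t)) = 0 := by
      rw [hk]
      simp only [map_add, map_mul, map_pow, map_ofNat]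
      linear_combination (-(3 * algebraMap k E c2) - algebraMap k E c3 * α -
        algebraMap k E c3 * algebraMap k E s) * hα
    have hA1 : 3 * c1 + 3 * c2 * s + c3 * (s ^ 2 + t) = 0 := by
      by_contra h1
      apply hr
      refine ⟨-(c0 + 3 * c2 * t + c3 * s * t) / (3 * c1 + 3 * c2 * s + c3 * (s ^ 2 + t)), ?_⟩
      have h2 : algebraMap k E (3 * c1 + 3 * c2 * s + c3 * (s ^ 2 + t)) ≠ 0 := by
        rw [Ne, map_eq_zero]
        exact h1
      rw [map_div₀, map_neg, div_eq_iff h2]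
      linear_combination -hA
    have hA0 : c0 + 3 * c2 * t + c3 * s * t = 0 := by
      rw [hA1, map_zero, mul_zero, add_zero] at hA
      exact (map_eq_zero _).1 hA
    by_cases h3 : c3 = 0
    · by_cases hb : b = 0
      · have h4 : a ≠ 0 := by
          rintro rfl
          apply hv
          funext i
          rw [hb]
          simp
        refine ⟨a, h4, ?_⟩
        have h5 := key (F := k) 0
        simp only [Algebra.algebraMap_self, RingHom.id_apply, zero_mul, add_zero, mul_zero] at h5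
        have h6 := h5
        have h7 : c2 = 0 := by
          rw [hc2, hb]
          unfold tri
          simp
        rw [h3, h7] at hA0
        have h8 : c0 = 0 := by simpa using hA0
        rw [h8] at h5
        simpa using h5
      · refine ⟨b, hb, ?_⟩
        rw [aeval_tens, ← hc3, h3]
    · obtain ⟨T, hT⟩ : ∃ T, T = -(3 * c2 + s * c3) / c3 := ⟨_, rfl⟩
      have hT' : T * c3 = -(3 * c2 + s * c3) := by
        rw [hT, div_mul_cancel₀ _ h3]
      refine ⟨fun i => a i + T * b i, fun h4 => ?_, ?_⟩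
      · have h5 : ∀ i, a i = -T * b i := by
          intro i
          have := congrFun h4 i
          simp only [Pi.zero_apply] at this
          linear_combination this
        have h6 : (fun i => algebraMap k E (a i) + α * algebraMap k E (b i)) =
            (α - algebraMap k E T) • fun i => algebraMap k E (b i) := by
          funext i
          simp only [Pi.smul_apply, smul_eq_mul]
          rw [h5 i, map_mul, map_neg]
          ring
        rw [h6, aeval_tens] at h0
        have e1 : ∀ x y z : Fin 5 → E, tri τ x ((α - algebraMap k E T) • y) z =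
            (α - algebraMap k E T) * tri τ x y z := by
          intro x y z
          rw [tri_swap2 hτ2, tri_smul_right, tri_swap2 hτ2 x z y]
        rw [tri_smul_right, e1, tri_swap1 hτ1, e1, tri_map, ← hc3] at h0
        have h7 : α - algebraMap k E T ≠ 0 := fun h8 => hr ⟨T, by linear_combination -h8⟩
        have h9 : algebraMap k E c3 ≠ 0 := by
          rw [Ne, map_eq_zero]
          exact h3
        exact mul_ne_zero h7 (mul_ne_zero h7 (mul_ne_zero h7 h9)) h0
      · have h5 := key (F := k) T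
        simp only [Algebra.algebraMap_self, RingHom.id_apply] at h5
        rw [h5]
        linear_combination (T ^ 2 - s * T - t) * hT' + T * hA1 + hA0

/-! ### Linear automorphisms -/

/-- `f (A x) = c f (x)` over all extension fields. -/
def InvE (f : MvPolynomial (Fin 5) k) (A : Matrix (Fin 5) (Fin 5) k) (c : k) : Prop :=
  ∀ (E : Type) [Field E] [Algebra k E] (x : Fin 5 → E),
    aeval ((A.map (algebraMap k E)) *ᵥ x) f = algebraMap k E c * aeval x f

theorem invE_of_bind (f : MvPolynomial (Fin 5) k) (A : Matrix (Fin 5) (Fin 5) k) (c : k)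
    (h : bind₁ (fun i => ∑ j, C (A i j) * X j) f = C c * f) : InvE f A c := by
  intro E _ _ x
  have h1 := congrArg (aeval x) h
  rw [aeval_bind₁, map_mul, aeval_C] at h1
  rw [← h1]
  congr 1
  ext i
  simp [Matrix.mulVec, dotProduct]

theorem invE_mul {f : MvPolynomial (Fin 5) k} {A B : Matrix (Fin 5) (Fin 5) k} {c d : k}
    (hA : InvE f A c) (hB : InvE f B d) : InvE f (A * B) (c * d) := by
  intro E _ _ x
  rw [Matrix.map_mul, ← Matrix.mulVec_mulVec, hA E, hB E, map_mul, mul_assoc]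

theorem invE_one (f : MvPolynomial (Fin 5) k) : InvE f 1 1 := by
  intro E _ _ x
  rw [Matrix.map_one _ (map_zero _) (map_one _), Matrix.one_mulVec, map_one, one_mul]

theorem invE_pow {f : MvPolynomial (Fin 5) k} {A : Matrix (Fin 5) (Fin 5) k} {c : k}
    (hA : InvE f A c) (n : ℕ) : InvE f (A ^ n) (c ^ n) := by
  induction n with
  | zero =>
    rw [pow_zero, pow_zero]
    exact invE_one f
  | succ n ih =>
    rw [pow_succ, pow_succ]
    exact invE_mul ih hA

theorem aeval_smul [CharZero k] (f : MvPolynomial (Fin 5) k) (hf : f.IsHomogeneous 3) (c : E)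
    (x : Fin 5 → E) : aeval (c • x) f = c ^ 3 * aeval x f := by
  obtain ⟨τ, hτ1, hτ2, rfl⟩ := exists_symm f hf
  have e1 : ∀ x y z : Fin 5 → E, tri τ x (c • y) z = c * tri τ x y z := by
    intro x y z
    rw [tri_swap2 hτ2, tri_smul_right, tri_swap2 hτ2 x z y]
  rw [aeval_tens, aeval_tens, tri_smul_right, e1, tri_swap1 hτ1, e1]
  ring

theorem invE_smul [CharZero k] {f : MvPolynomial (Fin 5) k} (hf : f.IsHomogeneous 3)
    {A : Matrix (Fin 5) (Fin 5) k} {c : k} (hA : InvE f A c) (e : k) :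
    InvE f (e • A) (e ^ 3 * c) := by
  intro E _ _ x
  have h1 : ((e • A).map (algebraMap k E)) *ᵥ x =
      algebraMap k E e • ((A.map (algebraMap k E)) *ᵥ x) := by
    rw [← Matrix.smul_mulVec]
    congr 1
    ext i j
    simp
  rw [h1, aeval_smul f hf, hA E, map_mul, map_pow]
  ring

/-- scaling -/
theorem scale [CharZero k] {f : MvPolynomial (Fin 5) k} (hf : f.IsHomogeneous 3)
    (hz : ∀ x : Fin 5 → k, x ≠ 0 → aeval x f ≠ 0) {B : Matrix (Fin 5) (Fin 5) k} {c d : k}
    (hB : InvE f B c) {p : ℕ} (hp : p.Prime) (hp3 : p ≠ 3) (hd : B ^ p = d • 1) (hd0 : d ≠ 0)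
    (hns : ∀ e : k, B ≠ e • 1) :
    ∃ B1 : Matrix (Fin 5) (Fin 5) k, InvE f B1 1 ∧ B1 ^ p = 1 ∧ B1 ≠ 1 := by
  have h1 : c ^ p = d ^ 3 := by
    have h2 := invE_pow hB p
    rw [hd] at h2
    have h3 := invE_smul hf (invE_one f) d
    have h4 := h2 k (Pi.single 0 1)
    have h5 := h3 k (Pi.single 0 1)
    rw [h4, mul_one] at h5
    have h6 := hz (Pi.single 0 1) (by
      intro h7
      have := congrFun h7 0
      simp at this)
    exact mul_right_cancel₀ h6 h5
  have hc0 : c ≠ 0 := by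
    rintro rfl
    rw [zero_pow hp.ne_zero] at h1
    exact pow_ne_zero 3 hd0 h1.symm
  have hcop : Nat.Coprime 3 p := (Nat.coprime_primes Nat.prime_three hp).2 (Ne.symm hp3)
  have h2 := Nat.gcd_eq_gcd_ab 3 p
  rw [hcop.gcd_eq_one] at h2
  obtain ⟨u, hu⟩ : ∃ u, u = Nat.gcdA 3 p := ⟨_, rfl⟩
  obtain ⟨v, hv⟩ : ∃ v, v = Nat.gcdB 3 p := ⟨_, rfl⟩
  rw [← hu, ← hv] at h2
  have h3 : (3 : ℤ) * u + p * v = 1 := by
    rw [← Nat.cast_ofNat (n := 3)]
    exact_mod_cast h2.symm
  obtain ⟨e, he⟩ : ∃ e, e = c ^ u * d ^ v := ⟨_, rfl⟩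
  have he0 : e ≠ 0 := by
    rw [he]
    exact mul_ne_zero (zpow_ne_zero _ hc0) (zpow_ne_zero _ hd0)
  have h1' : c ^ (p : ℤ) = d ^ (3 : ℤ) := by exact_mod_cast h1
  have he3 : e ^ 3 = c := by
    calc e ^ 3 = (e : k) ^ (3 : ℤ) := by norm_cast
      _ = c ^ (3 * u) * (d ^ (3 : ℤ)) ^ v := by
        rw [he, mul_zpow, ← _root_.zpow_mul, ← _root_.zpow_mul, ← _root_.zpow_mul, mul_comm u, mul_comm v]
      _ = c ^ (3 * u + p * v) := by rw [← h1', ← _root_.zpow_mul, ← zpow_add₀ hc0]
      _ = c := by rw [h3, zpow_one]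
  have hep : e ^ p = d := by
    calc e ^ p = (e : k) ^ (p : ℤ) := by norm_cast
      _ = (c ^ (p : ℤ)) ^ u * d ^ (p * v) := by
        rw [he, mul_zpow, ← _root_.zpow_mul, ← _root_.zpow_mul, ← _root_.zpow_mul, mul_comm u, mul_comm v]
      _ = d ^ (3 * u + p * v) := by rw [h1', ← _root_.zpow_mul, ← zpow_add₀ hd0]
      _ = d := by rw [h3, zpow_one]
  refine ⟨e⁻¹ • B, ?_, ?_, ?_⟩
  · have h4 := invE_smul hf hB e⁻¹
    rw [inv_pow, he3, inv_mul_cancel₀ hc0] at h4
    exact h4
  · rw [smul_pow, hd, smul_smul, inv_pow, hep, inv_mul_cancel₀ hd0, one_smul]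
  · intro h4
    apply hns e
    rw [← h4, smul_smul, mul_inv_cancel₀ he0, one_smul]

theorem exists_mulVec_ne {B : Matrix (Fin 5) (Fin 5) k} (h : B ≠ 1) : ∃ x, B *ᵥ x ≠ x := by
  by_contra hcon
  push Not at hcon
  apply h
  ext i j
  have := congrFun (hcon (Pi.single j 1)) i
  rw [Matrix.mulVec_single_one] at this
  rw [Matrix.one_apply]
  simpa [Pi.single_apply] using this

/-- order 2 -/
theorem ord_two [CharZero k] {f : MvPolynomial (Fin 5) k} (hf : f.IsHomogeneous 3)
    {B : Matrix (Fin 5) (Fin 5) k} (hB : InvE f B 1) (h2 : B ^ 2 = 1) (h1 : B ≠ 1) :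
    ∃ x : Fin 5 → k, x ≠ 0 ∧ aeval x f = 0 := by
  obtain ⟨x, hx⟩ := exists_mulVec_ne h1
  refine ⟨x - B *ᵥ x, fun h3 => hx (sub_eq_zero.1 h3).symm, ?_⟩
  have h3 := hB k (x - B *ᵥ x)
  have h4 : (B.map (algebraMap k k)) *ᵥ (x - B *ᵥ x) = (-1 : k) • (x - B *ᵥ x) := by
    have e : B.map (algebraMap k k) = B := by
      ext i j
      simp
    rw [e, Matrix.mulVec_sub, Matrix.mulVec_mulVec, ← pow_two, h2, Matrix.one_mulVec, neg_smul,
      one_smul, neg_sub]
  rw [h4, aeval_smul f hf, map_one, one_mul] at h3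
  have h5 : (2 : k) * aeval (x - B *ᵥ x) f = 0 := by linear_combination -h3
  exact (mul_eq_zero.1 h5).resolve_left (by norm_num)

/-- the elements of a field generated by `β`, `β ^ 2 = 1 - β` -/
theorem golden {K : Type} [Field K] [Algebra k K] (β : K) (hβ : β ^ 2 = 1 - β)
    (y : IntermediateField.adjoin k {β}) : ∃ p q : k, (y : K) = algebraMap k K p + β * algebraMap k K q := by
  have hint : IsIntegral k β := by
    refine ⟨Polynomial.X ^ 2 + Polynomial.X - 1, ?_, ?_⟩
    · have h1 : (Polynomial.X ^ 2 + Polynomial.X - 1 : Polynomial k) =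
          Polynomial.X ^ 2 + (Polynomial.X - 1) := by ring
      rw [h1]
      refine Polynomial.monic_X_pow_add ?_
      refine lt_of_le_of_lt (Polynomial.degree_sub_le _ _) ?_
      rw [Polynomial.degree_X, Polynomial.degree_one]
      norm_num
    · simp only [Polynomial.eval₂_sub, Polynomial.eval₂_add, Polynomial.eval₂_pow,
        Polynomial.eval₂_X, Polynomial.eval₂_one]
      rw [hβ]
      ring
  have hy : (y : K) ∈ Algebra.adjoin k {β} := by
    rw [← IntermediateField.adjoin_simple_toSubalgebra_of_isAlgebraic hint.isAlgebraic]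
    exact y.2
  refine Algebra.adjoin_induction (p := fun z _ => ∃ p q : k, z = algebraMap k K p +
    β * algebraMap k K q) ?_ ?_ ?_ ?_ hy
  · intro z hz
    rw [Set.mem_singleton_iff.1 hz]
    exact ⟨0, 1, by simp⟩
  · intro r
    exact ⟨r, 0, by simp⟩
  · rintro z w _ _ ⟨p, q, rfl⟩ ⟨p', q', rfl⟩
    refine ⟨p + p', q + q', ?_⟩
    simp only [map_add]
    ring
  · rintro z w _ _ ⟨p, q, rfl⟩ ⟨p', q', rfl⟩
    refine ⟨p * p' + q * q', p * q' + q * p' - q * q', ?_⟩
    simp only [map_add, map_mul, map_sub]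
    linear_combination (algebraMap k K q * algebraMap k K q') * hβ

/-- order 5 -/
theorem ord_five [CharZero k] {f : MvPolynomial (Fin 5) k} (hf : f.IsHomogeneous 3)
    {B : Matrix (Fin 5) (Fin 5) k} (hB : InvE f B 1) (h5 : B ^ 5 = 1) (h1 : B ≠ 1) :
    ∃ x : Fin 5 → k, x ≠ 0 ∧ aeval x f = 0 := by
  obtain ⟨x, hx⟩ := exists_mulVec_ne h1
  let K := AlgebraicClosure k
  obtain ⟨ω, hω⟩ : ∃ ω : K, IsPrimitiveRoot ω 5 := by
    obtain ⟨ω, hω⟩ := IsAlgClosed.exists_root (Polynomial.cyclotomic 5 K) (by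
      rw [Polynomial.degree_cyclotomic]
      decide)
    exact ⟨ω, Polynomial.isRoot_cyclotomic_iff.1 hω⟩
  -- the images of the iterates
  obtain ⟨b, hb⟩ : ∃ b : ℕ → Fin 5 → K, ∀ n, b n = fun i => algebraMap k K ((B ^ n *ᵥ x) i) :=
    ⟨_, fun _ => rfl⟩
  have hbs : ∀ n, (B.map (algebraMap k K)) *ᵥ b n = b (n + 1) := by
    intro n
    rw [hb, hb]
    funext i
    rw [pow_succ', ← Matrix.mulVec_mulVec]
    simp only [Matrix.mulVec, dotProduct, Matrix.map_apply, map_sum, map_mul]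
  have hb5 : b 5 = b 0 := by
    rw [hb, hb, h5, pow_zero]
  obtain ⟨V, hV⟩ : ∃ V : K → Fin 5 → K, ∀ ζ, V ζ = b 0 + ζ ^ 4 • b 1 + ζ ^ 3 • b 2 + ζ ^ 2 • b 3 +
    ζ • b 4 := ⟨_, fun _ => rfl⟩
  have hroot : ∀ ζ : K, IsPrimitiveRoot ζ 5 → ζ ^ 5 = 1 ∧ 1 + ζ + ζ ^ 2 + ζ ^ 3 + ζ ^ 4 = 0 := by
    intro ζ hζ
    refine ⟨hζ.pow_eq_one, ?_⟩
    have := hζ.geom_sum_eq_zero (by norm_num)
    simpa [Finset.sum_range_succ] using this
  have hex : ∃ ζ : K, IsPrimitiveRoot ζ 5 ∧ V ζ ≠ 0 := by
    by_contra hcon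
    push Not at hcon
    obtain ⟨g1, g2⟩ := hroot ω hω
    have p1 := hcon ω hω
    have p2 := hcon (ω ^ 2) (hω.pow_of_coprime 2 (by norm_num))
    have p3 := hcon (ω ^ 3) (hω.pow_of_coprime 3 (by norm_num))
    have p4 := hcon (ω ^ 4) (hω.pow_of_coprime 4 (by norm_num))
    have q : ∀ i, 4 * b 0 i - b 1 i - b 2 i - b 3 i - b 4 i = 0 := by
      intro i
      have r1 := congrFun p1 i
      have r2 := congrFun p2 i
      have r3 := congrFun p3 i
      have r4 := congrFun p4 i
      simp only [hV, Pi.add_apply, Pi.smul_apply, smul_eq_mul, Pi.zero_apply] at r1 r2 r3 r4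
      linear_combination r1 + r2 + r3 + r4 -
        b 1 i * (g2 + (ω ^ 3 + ω ^ 2 * (ω ^ 5 + 1) + ω * (ω ^ 10 + ω ^ 5 + 1)) * g1) -
        b 2 i * (g2 + (ω + ω ^ 4 + ω ^ 2 * (ω ^ 5 + 1)) * g1) -
        b 3 i * (g2 + (ω + ω ^ 3) * g1) - b 4 i * g2
    have Q : (4 : K) • b 0 = b 1 + b 2 + b 3 + b 4 := by
      funext i
      simp only [Pi.add_apply, Pi.smul_apply, smul_eq_mul]
      linear_combination q i
    have Q' := congrArg (fun y => (B.map (algebraMap k K)) *ᵥ y) Q
    simp only [Matrix.mulVec_add, Matrix.mulVec_smul, hbs, zero_add, Nat.reduceAdd, hb5] at Q'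
    apply hx
    funext i
    have r1 := congrFun Q i
    have r2 := congrFun Q' i
    simp only [Pi.add_apply, Pi.smul_apply, smul_eq_mul] at r1 r2
    have r3 : (5 : K) * (b 1 i - b 0 i) = 0 := by linear_combination r2 - r1
    have r4 := sub_eq_zero.1 ((mul_eq_zero.1 r3).resolve_left (by norm_num))
    rw [hb, hb] at r4
    have r5 := (algebraMap k K).injective r4
    rw [pow_one, pow_zero, Matrix.one_mulVec] at r5
    exact r5
  obtain ⟨ζ, hζ, hne⟩ := hex
  obtain ⟨g1, g2⟩ := hroot ζ hζ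
  have hBV : (B.map (algebraMap k K)) *ᵥ V ζ = ζ • V ζ := by
    rw [hV]
    simp only [Matrix.mulVec_add, Matrix.mulVec_smul, hbs]
    rw [hb5]
    funext i
    simp only [Pi.add_apply, Pi.smul_apply, smul_eq_mul, zero_add, Nat.reduceAdd]
    linear_combination (-(b 1 i)) * g1
  have hFV : aeval (V ζ) f = 0 := by
    have h2 := hB K (V ζ)
    rw [hBV, aeval_smul f hf, map_one, one_mul] at h2
    have h3 : ζ ^ 3 - 1 ≠ 0 := by
      intro h4
      have h5' := hζ.dvd_of_pow_eq_one 3 (by linear_combination h4)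
      omega
    have h6 : (ζ ^ 3 - 1) * aeval (V ζ) f = 0 := by linear_combination h2
    exact (mul_eq_zero.1 h6).resolve_left h3
  -- the descent
  obtain ⟨β, hβ⟩ : ∃ β, β = ζ + ζ ^ 4 := ⟨_, rfl⟩
  have hβ2 : β ^ 2 = 1 - β := by
    rw [hβ]
    linear_combination g2 + (2 + ζ ^ 3) * g1
  let k1 := IntermediateField.adjoin k {β}
  let β1 : k1 := ⟨β, IntermediateField.mem_adjoin_simple_self k β⟩
  have hβ1 : algebraMap k1 K β1 = β := rfl
  have hVe : (fun i => algebraMap k1 K (algebraMap k k1 ((B ^ 0 *ᵥ x) i) +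
      β1 * algebraMap k k1 ((B ^ 1 *ᵥ x) i) - β1 * algebraMap k k1 ((B ^ 2 *ᵥ x) i) -
      algebraMap k k1 ((B ^ 3 *ᵥ x) i)) +
      ζ * algebraMap k1 K (-algebraMap k k1 ((B ^ 1 *ᵥ x) i) -
      β1 * algebraMap k k1 ((B ^ 2 *ᵥ x) i) + β1 * algebraMap k k1 ((B ^ 3 *ᵥ x) i) +
      algebraMap k k1 ((B ^ 4 *ᵥ x) i))) = V ζ := by
    funext i
    rw [hV, hb, hb, hb, hb, hb]
    simp only [map_add, map_sub, map_neg, map_mul, hβ1, ← IsScalarTower.algebraMap_apply,
      Pi.add_apply, Pi.smul_apply, smul_eq_mul]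
    rw [hβ]
    linear_combination (-(algebraMap k K ((B ^ 2 *ᵥ x) i))) * (g2 + g1) +
      algebraMap k K ((B ^ 3 *ᵥ x) i) * g1
  obtain ⟨w, hw0, hw⟩ := quad (k := k1) (E := K) (f.map (algebraMap k k1)) (hf.map _) ζ β1 (-1)
    (by
      rw [hβ1, map_neg, map_one, hβ]
      linear_combination (-1) * g1)
    (fun i => algebraMap k k1 ((B ^ 0 *ᵥ x) i) + β1 * algebraMap k k1 ((B ^ 1 *ᵥ x) i) -
      β1 * algebraMap k k1 ((B ^ 2 *ᵥ x) i) - algebraMap k k1 ((B ^ 3 *ᵥ x) i))
    (fun i => -algebraMap k k1 ((B ^ 1 *ᵥ x) i) - β1 * algebraMap k k1 ((B ^ 2 *ᵥ x) i) +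
      β1 * algebraMap k k1 ((B ^ 3 *ᵥ x) i) + algebraMap k k1 ((B ^ 4 *ᵥ x) i))
    (by
      rw [hVe]
      exact hne)
    (by
      rw [hVe, aeval_map_algebraMap]
      exact hFV)
  rw [aeval_map_algebraMap] at hw
  have hpq : ∀ i, ∃ p q : k, w i = algebraMap k k1 p + β1 * algebraMap k k1 q := by
    intro i
    obtain ⟨p, q, h2⟩ := golden β hβ2 (w i)
    exact ⟨p, q, Subtype.ext h2⟩
  choose p q hpq using hpq
  have hw' : w = fun i => algebraMap k k1 (p i) + β1 * algebraMap k k1 (q i) := funext hpq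
  refine quad f hf β1 (-1) 1 ?_ p q ?_ ?_
  · apply Subtype.ext
    show β ^ 2 = algebraMap k K (-1) * β + algebraMap k K 1
    rw [hβ2, map_neg, map_one]
    ring
  · rw [← hw']
    exact hw0
  · rw [← hw']
    exact hw

/-- The cubic threefold `f = 0` is nonsingular: the partial derivatives of `f` have no common zero over an algebraic
closure of `k` except `0`. -/
def Nonsingular (f : MvPolynomial (Fin 5) k) : Prop :=
  ∀ x : Fin 5 → AlgebraicClosure k,
    (∀ i : Fin 5, eval x ((pderiv i f).map (algebraMap k (AlgebraicClosure k))) = 0) → x = 0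

/-- the Gauss period of order 5 for the prime 11 -/
theorem gauss {K : Type} [Field K] {α : K} (hprim : IsPrimitiveRoot α 11) :
    (2 * ∑ n : Fin 5, α ^ ((-2 : ℤ) ^ (n : ℕ)) + 1) ^ 2 = -11 := by
  have hα0 : α ≠ 0 := hprim.ne_zero (by norm_num)
  have hα11 : α ^ 11 = 1 := hprim.pow_eq_one
  have hgs := hprim.geom_sum_eq_zero (by norm_num)
  simp only [Finset.sum_range_succ, Finset.sum_range_zero, zero_add, pow_zero, pow_one] at hgs
  have e1 : α ^ (-2 : ℤ) = α ^ 9 := by
    rw [_root_.zpow_neg, ← one_div, div_eq_iff (zpow_ne_zero _ hα0)]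
    norm_cast
    rw [← pow_add, hα11]
  have e2 : α ^ (-8 : ℤ) = α ^ 3 := by
    rw [_root_.zpow_neg, ← one_div, div_eq_iff (zpow_ne_zero _ hα0)]
    norm_cast
    rw [← pow_add, hα11]
  have e3 : α ^ (16 : ℤ) = α ^ 5 := by
    have : α ^ (16 : ℤ) = α ^ 16 := by norm_cast
    rw [this]
    linear_combination (α ^ 5) * hα11
  have e4 : α ^ (4 : ℤ) = α ^ 4 := by norm_cast
  have hsum : ∑ n : Fin 5, α ^ ((-2 : ℤ) ^ (n : ℕ)) = α + α ^ 9 + α ^ 4 + α ^ 3 + α ^ 5 := by
    rw [Fin.sum_univ_five]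
    have h0 : ((-2 : ℤ) ^ ((0 : Fin 5) : ℕ)) = 1 := rfl
    have h1 : ((-2 : ℤ) ^ ((1 : Fin 5) : ℕ)) = -2 := rfl
    have h2 : ((-2 : ℤ) ^ ((2 : Fin 5) : ℕ)) = 4 := rfl
    have h3 : ((-2 : ℤ) ^ ((3 : Fin 5) : ℕ)) = -8 := rfl
    have h4 : ((-2 : ℤ) ^ ((4 : Fin 5) : ℕ)) = 16 := rfl
    rw [h0, h1, h2, h3, h4, zpow_one, e1, e2, e3, e4]
  rw [hsum]
  linear_combination (4 * (3 - 2 * α + 2 * α ^ 4 - α ^ 7 + α ^ 8)) * hgs

/-- prime order at least 7 -/
theorem ord_large [CharZero k] {f : MvPolynomial (Fin 5) k} (hf : f.IsHomogeneous 3)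
    (hs : Nonsingular f) {B : Matrix (Fin 5) (Fin 5) k} (hB : InvE f B 1) {p : ℕ} (hp : p.Prime)
    (h2 : p ≠ 2) (h3 : p ≠ 3) (h5 : p ≠ 5) (hBp : B ^ p = 1) (h1 : B ≠ 1) :
    p = 11 ∧ ∃ c : k, c ^ 2 = -11 := by
  classical
  obtain ⟨τ, hτ1, hτ2, rfl⟩ := exists_symm f hf
  have hτ : Sym τ := ⟨hτ1, hτ2⟩
  let K := AlgebraicClosure k
  obtain ⟨φ, hφ⟩ : ∃ φ : Module.End K (Fin 5 → K), φ = (B.map (algebraMap k K)).toLin' := ⟨_, rfl⟩
  have hφa : ∀ x, φ x = (B.map (algebraMap k K)) *ᵥ x := fun x => by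
    rw [hφ, Matrix.toLin'_apply]
  have hφp : φ ^ p = 1 := by
    rw [hφ, ← Matrix.toLin'_pow, ← Matrix.map_pow, hBp, Matrix.map_one _ (map_zero _) (map_one _),
      Matrix.toLin'_one]
    rfl
  have hT : ∀ x y z, tri τ (φ x) (φ y) (φ z) = tri τ x y z := by
    refine tri_inv hτ φ fun x => ?_
    have h := hB K x
    rw [← hφa, aeval_tens, aeval_tens, map_one, one_mul] at h
    exact h
  have hns : ∀ v : Fin 5 → K, (∀ y, tri τ v v y = 0) → v = 0 := by
    intro v hv
    refine hs v fun i => ?_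
    rw [eval_map, ← aeval_def, aeval_pderiv, tri_swap1 hτ1, tri_swap2 hτ2, hv]
    simp
  have hss : φ.IsSemisimple := by
    refine Module.End.isSemisimple_of_squarefree_aeval_eq_zero
      (p := (Polynomial.X ^ p - 1 : Polynomial K)) ?_ ?_
    · refine (Polynomial.X_pow_sub_one_separable_iff.2 ?_).squarefree
      exact_mod_cast hp.ne_zero
    · rw [map_sub, map_pow, Polynomial.aeval_X, map_one, hφp, sub_self]
  have htop := hss.iSup_eigenspace_eq_top
  -- the next eigenvalue
  have step : ∀ α : K, (∃ v, v ≠ 0 ∧ φ v = α • v) → ∃ w, w ≠ 0 ∧ φ w = (α ^ (-2 : ℤ)) • w := by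
    rintro α ⟨v, hv0, hv⟩
    by_contra hcon
    push Not at hcon
    apply hv0
    apply hns
    let L : (Fin 5 → K) →ₗ[K] K :=
      { toFun := fun y => tri τ v v y
        map_add' := fun y z => tri_add_right τ v v y z
        map_smul' := fun c y => tri_smul_right τ v v y c }
    have hker : (⨆ μ : K, φ.eigenspace μ) ≤ LinearMap.ker L := by
      refine iSup_le fun μ => ?_
      intro w hw
      rw [Module.End.mem_eigenspace_iff] at hw
      rw [LinearMap.mem_ker]
      show tri τ v v w = 0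
      by_contra h6
      have h7 := hT v v w
      have e1 : ∀ x y z : Fin 5 → K, tri τ x (α • y) z = α * tri τ x y z := by
        intro x y z
        rw [tri_swap2 hτ2, tri_smul_right, tri_swap2 hτ2 x z y]
      rw [hv, hw, tri_smul_right, e1, tri_swap1 hτ1, e1] at h7
      have h8 : (μ * (α * α)) * tri τ v v w = 1 * tri τ v v w := by
        linear_combination h7
      have h9 := mul_right_cancel₀ h6 h8
      have h10 : μ = α ^ (-2 : ℤ) := by
        have h11 : α ≠ 0 := by
          rintro rfl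
          rw [mul_zero, mul_zero] at h9
          exact zero_ne_one h9
        rw [_root_.zpow_neg, ← one_div, eq_div_iff (zpow_ne_zero _ h11)]
        rw [← h9]
        norm_cast
        rw [pow_two]
      refine hcon w ?_ ?_
      · rintro rfl
        apply h6
        unfold tri
        simp
      · rw [hw, h10]
    intro y
    have : y ∈ LinearMap.ker L := hker (by rw [htop]; exact Submodule.mem_top)
    exact LinearMap.mem_ker.1 this
  have hpow : ∀ (α : K) (v : Fin 5 → K), φ v = α • v → ∀ n : ℕ, (φ ^ n) v = α ^ n • v := by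
    intro α v hv n
    induction n with
    | zero => simp
    | succ n ih =>
      rw [pow_succ', Module.End.mul_apply, ih, map_smul, hv, smul_smul, pow_succ]
  -- an eigenvalue different from 1
  obtain ⟨α, hα1, v0, hv0, hv⟩ : ∃ α : K, α ≠ 1 ∧ ∃ v, v ≠ 0 ∧ φ v = α • v := by
    by_contra hcon
    push Not at hcon
    obtain ⟨x, hx⟩ := exists_mulVec_ne h1
    apply hx
    have h6 : (⨆ μ : K, φ.eigenspace μ) ≤ φ.eigenspace 1 := by
      refine iSup_le fun μ => ?_
      by_cases hμ : μ = 1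
      · rw [hμ]
      · intro w hw
        rw [Module.End.mem_eigenspace_iff] at hw
        by_cases hw0 : w = 0
        · rw [hw0]
          exact Submodule.zero_mem _
        · exact absurd hw (hcon μ hμ w hw0)
    have h7 : (fun i => algebraMap k K (x i)) ∈ φ.eigenspace 1 := h6 (by
      rw [htop]
      exact Submodule.mem_top)
    rw [Module.End.mem_eigenspace_iff, one_smul, hφa] at h7
    funext i
    apply (algebraMap k K).injective
    have h8 := congrFun h7 i
    rw [← h8]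
    simp only [Matrix.mulVec, dotProduct, Matrix.map_apply, map_sum, map_mul]
  have hαp : α ^ p = 1 := by
    have h6 := hpow α v0 hv p
    rw [hφp, Module.End.one_apply] at h6
    obtain ⟨i, hi⟩ := Function.ne_iff.1 hv0
    have h7 := congrFun h6 i
    rw [Pi.smul_apply, smul_eq_mul] at h7
    have h8 : α ^ p * v0 i = 1 * v0 i := by rw [← h7, one_mul]
    exact mul_right_cancel₀ hi h8
  have hprim : IsPrimitiveRoot α p := by
    have := Fact.mk hp
    have h6 := IsPrimitiveRoot.orderOf α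
    rwa [orderOf_eq_prime hαp hα1] at h6
  have hseq : ∀ n : ℕ, ∃ v, v ≠ 0 ∧ φ v = (α ^ ((-2 : ℤ) ^ n)) • v := by
    intro n
    induction n with
    | zero =>
      rw [pow_zero, zpow_one]
      exact ⟨v0, hv0, hv⟩
    | succ n ih =>
      have h6 := step _ ih
      rw [← _root_.zpow_mul, ← pow_succ] at h6
      exact h6
  choose V hV0 hV using hseq
  have hev : ∀ n, φ.HasEigenvector (α ^ ((-2 : ℤ) ^ n)) (V n) := fun n =>
    ⟨Module.End.mem_eigenspace_iff.2 (hV n), hV0 n⟩
  have hp11 : p = 11 := by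
    have hninj : ¬ Function.Injective fun n : Fin 6 => α ^ ((-2 : ℤ) ^ (n : ℕ)) := by
      intro hinj
      have h6 := φ.eigenvectors_linearIndependent' _ hinj (fun n : Fin 6 => V n) fun n => hev n
      have h7 := h6.fintype_card_le_finrank
      rw [Fintype.card_fin, Module.finrank_fin_fun] at h7
      omega
    obtain ⟨i, j, hij, hne⟩ : ∃ i j : Fin 6, α ^ ((-2 : ℤ) ^ (i : ℕ)) = α ^ ((-2 : ℤ) ^ (j : ℕ)) ∧
        i ≠ j := by
      unfold Function.Injective at hninj
      push Not at hninj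
      obtain ⟨i, j, h6, h7⟩ := hninj
      exact ⟨i, j, h6, h7⟩
    have hα0 : α ≠ 0 := hprim.ne_zero hp.ne_zero
    have h6 : α ^ ((-2 : ℤ) ^ (i : ℕ) - (-2 : ℤ) ^ (j : ℕ)) = 1 := by
      rw [zpow_sub₀ hα0, hij, div_self (zpow_ne_zero _ hα0)]
    have h7 := (hprim.zpow_eq_one_iff_dvd _).1 h6
    have h8 : ∀ i j : Fin 6, i ≠ j → ((-2 : ℤ) ^ (i : ℕ) - (-2 : ℤ) ^ (j : ℕ)) ∣ 7920 := by decide
    have h9 : p ∣ 7920 := by
      have := h7.trans (h8 i j hne)
      exact_mod_cast this
    have h10 : (7920 : ℕ) = 2 ^ 4 * (3 ^ 2 * (5 * 11)) := by norm_num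
    rw [h10, hp.dvd_mul, hp.dvd_mul, hp.dvd_mul] at h9
    rcases h9 with h9 | h9 | h9 | h9
    · exact absurd ((Nat.prime_dvd_prime_iff_eq hp Nat.prime_two).1 (hp.dvd_of_dvd_pow h9)) h2
    · exact absurd ((Nat.prime_dvd_prime_iff_eq hp Nat.prime_three).1 (hp.dvd_of_dvd_pow h9)) h3
    · exact absurd ((Nat.prime_dvd_prime_iff_eq hp Nat.prime_five).1 h9) h5
    · exact (Nat.prime_dvd_prime_iff_eq hp (by norm_num)).1 h9
  subst hp11
  refine ⟨rfl, ?_⟩
  have hα0 : α ≠ 0 := hprim.ne_zero (by norm_num)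
  have hinj : Function.Injective fun n : Fin 5 => α ^ ((-2 : ℤ) ^ (n : ℕ)) := by
    intro i j hij
    by_contra hne
    have hij' : α ^ ((-2 : ℤ) ^ (i : ℕ)) = α ^ ((-2 : ℤ) ^ (j : ℕ)) := hij
    have h6 : α ^ ((-2 : ℤ) ^ (i : ℕ) - (-2 : ℤ) ^ (j : ℕ)) = 1 := by
      rw [zpow_sub₀ hα0, hij', div_self (zpow_ne_zero _ hα0)]
    have h7 := (hprim.zpow_eq_one_iff_dvd _).1 h6
    have h8 : ∀ i j : Fin 5, i ≠ j → ¬ (((11 : ℕ) : ℤ) ∣ (-2 : ℤ) ^ (i : ℕ) - (-2 : ℤ) ^ (j : ℕ)) := by
      decide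
    exact h8 i j hne h7
  have hli := φ.eigenvectors_linearIndependent' _ hinj (fun n : Fin 5 => V n) fun n => hev n
  let bs := basisOfLinearIndependentOfCardEqFinrank hli (by
    rw [Fintype.card_fin, Module.finrank_fin_fun])
  have hbs : ∀ n, bs n = V n := fun n => by
    rw [coe_basisOfLinearIndependentOfCardEqFinrank]
  have htr : LinearMap.trace K _ φ = ∑ n : Fin 5, α ^ ((-2 : ℤ) ^ (n : ℕ)) := by
    rw [LinearMap.trace_eq_matrix_trace K bs φ, Matrix.trace]
    refine Finset.sum_congr rfl fun n _ => ?_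
    rw [Matrix.diag_apply, LinearMap.toMatrix_apply, hbs n, hV, map_smul, ← hbs n]
    simp
  have htr2 : LinearMap.trace K _ φ = algebraMap k K B.trace := by
    rw [hφ, Matrix.trace_toLin'_eq]
    simp [Matrix.trace, map_sum]
  refine ⟨2 * B.trace + 1, ?_⟩
  apply (algebraMap k K).injective
  rw [map_pow, map_add, map_mul, ← htr2, htr]
  simp only [map_ofNat, map_one, map_neg]
  exact gauss hprim

/-- order 3, non-trivial character -/
theorem ord_three [CharZero k] {f : MvPolynomial (Fin 5) k} (hf : f.IsHomogeneous 3)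
    {B : Matrix (Fin 5) (Fin 5) k} {c d : k} (hB : InvE f B c) (hd : B ^ 3 = d • 1) (hd0 : d ≠ 0)
    (hcd : c ≠ d) : ∃ x : Fin 5 → k, x ≠ 0 ∧ aeval x f = 0 := by
  by_contra hcon
  push Not at hcon
  have h1 : c ^ 3 = d ^ 3 := by
    have h2 := invE_pow hB 3
    rw [hd] at h2
    have h3 := invE_smul hf (invE_one f) d
    have h4 := h2 k (Pi.single 0 1)
    have h5 := h3 k (Pi.single 0 1)
    rw [h4, mul_one] at h5
    have h6 := hcon (Pi.single 0 1) (by
      intro h7
      have := congrFun h7 0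
      simp at this)
    exact mul_right_cancel₀ h6 h5
  obtain ⟨δ, hδ⟩ : ∃ δ, δ = B.det := ⟨_, rfl⟩
  have h2 : δ ^ 3 = d ^ 5 := by
    rw [hδ, ← Matrix.det_pow, hd, Matrix.det_smul, Fintype.card_fin, Matrix.det_one, mul_one]
  have hδ0 : δ ≠ 0 := by
    intro h3
    rw [h3] at h2
    exact pow_ne_zero 5 hd0 (by rw [← h2]; norm_num)
  obtain ⟨e, he⟩ : ∃ e, e = d ^ 2 / δ := ⟨_, rfl⟩
  have he3 : e ^ 3 = d := by
    rw [he, div_pow, h2]
    field_simp
  have he0 : e ≠ 0 := by
    rintro rfl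
    apply hd0
    rw [← he3]
    norm_num
  obtain ⟨ξ, hξ⟩ : ∃ ξ, ξ = c / d := ⟨_, rfl⟩
  have hξ3 : ξ ^ 3 = 1 := by
    rw [hξ, div_pow, h1, div_self (pow_ne_zero 3 hd0)]
  have hξ1 : ξ ≠ 1 := by
    rw [hξ]
    intro h3
    exact hcd ((div_eq_one_iff_eq hd0).1 h3)
  have hξs : 1 + ξ + ξ ^ 2 = 0 := by
    have h3 : (ξ - 1) * (1 + ξ + ξ ^ 2) = 0 := by linear_combination hξ3
    exact (mul_eq_zero.1 h3).resolve_left (sub_ne_zero.2 hξ1)
  -- the normalised matrix
  obtain ⟨N, hN⟩ : ∃ N, N = e⁻¹ • B := ⟨_, rfl⟩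
  have hN3 : N ^ 3 = 1 := by
    rw [hN, smul_pow, hd, smul_smul, inv_pow, he3, inv_mul_cancel₀ hd0, one_smul]
  have hNf : InvE f N ξ := by
    have h4 := invE_smul hf hB e⁻¹
    rw [← hN, inv_pow, he3] at h4
    rw [hξ, div_eq_inv_mul]
    exact h4
  have hNk : N.map (algebraMap k k) = N := by
    ext i j
    simp
  -- eigenvectors
  have key : ∀ (η : k) (v : Fin 5 → k), η ^ 3 = 1 → N *ᵥ v = η • v → v = 0 := by
    intro η v h3 h4
    by_contra h5
    have h6 := hNf k v
    rw [hNk, h4, aeval_smul f hf, h3, one_mul, Algebra.algebraMap_self, RingHom.id_apply] at h6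
    have h7 : (ξ - 1) * aeval v f = 0 := by linear_combination -h6
    exact hcon v h5 ((mul_eq_zero.1 h7).resolve_left (sub_ne_zero.2 hξ1))
  obtain ⟨x, hx⟩ : ∃ x : Fin 5 → k, x = Pi.single 0 1 := ⟨_, rfl⟩
  have hx0 : x ≠ 0 := by
    rw [hx]
    intro h7
    have := congrFun h7 0
    simp at this
  have hN3x : N *ᵥ (N *ᵥ (N *ᵥ x)) = x := by
    rw [Matrix.mulVec_mulVec, Matrix.mulVec_mulVec, ← pow_two, ← pow_succ, hN3, Matrix.one_mulVec]
  have hev : ∀ η : k, η ^ 3 = 1 → x + η ^ 2 • (N *ᵥ x) + η • (N *ᵥ (N *ᵥ x)) = 0 := by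
    intro η h3
    refine key η _ h3 ?_
    rw [Matrix.mulVec_add, Matrix.mulVec_add, Matrix.mulVec_smul, Matrix.mulVec_smul, hN3x]
    funext i
    simp only [Pi.add_apply, Pi.smul_apply, smul_eq_mul]
    linear_combination (-((N *ᵥ x) i)) * h3
  have p0 := hev 1 (one_pow 3)
  have p1 := hev ξ hξ3
  have p2 := hev (ξ ^ 2) (by rw [← pow_mul, pow_mul', hξ3, one_pow])
  apply hx0
  funext i
  have q0 := congrFun p0 i
  have q1 := congrFun p1 i
  have q2 := congrFun p2 i
  simp only [Pi.add_apply, Pi.smul_apply, smul_eq_mul, Pi.zero_apply] at q0 q1 q2 ⊢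
  have q3 : (3 : k) * x i = 0 := by
    linear_combination q0 + q1 + q2 - (N *ᵥ x) i * (hξs + ξ * hξ3) - (N *ᵥ (N *ᵥ x)) i * hξs
  exact (mul_eq_zero.1 q3).resolve_left (by norm_num)

/-- **Theorem.** Let `f = 0` be a nonsingular cubic threefold over a field `k` of characteristic `0` with a linear
automorphism over `k` of prime order `p`, given by the matrix `B` with `B ^ p = d` and `f (B x) = c f (x)`, `B` not
scalar. Then it has a `k`-rational point, unless `p = 3` and `c = d`, or `p = 11` and `-11` is a square in `k`. -/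
theorem result (k : Type) [Field k] [CharZero k] (f : MvPolynomial (Fin 5) k)
    (hf : f.IsHomogeneous 3) (hs : Nonsingular f) (B : Matrix (Fin 5) (Fin 5) k) (c d : k)
    (p : ℕ) (hp : p.Prime) (hd : d ≠ 0) (hBp : B ^ p = d • 1) (hB : ∀ e : k, B ≠ e • 1)
    (hBf : bind₁ (fun i => ∑ j, C (B i j) * X j) f = C c * f) (h3 : p = 3 → c ≠ d)
    (h11 : p = 11 → ∀ e : k, e ^ 2 ≠ -11) :
    ∃ x : Fin 5 → k, x ≠ 0 ∧ eval x f = 0 := by
  have hinv := invE_of_bind f B c hBf
  have hmain : ∃ x : Fin 5 → k, x ≠ 0 ∧ aeval x f = 0 := by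
    by_cases hp3 : p = 3
    · subst hp3
      exact ord_three hf hinv hBp hd (h3 rfl)
    by_contra hcon
    push Not at hcon
    obtain ⟨B1, g1, g2, g3⟩ := scale hf hcon hinv hp hp3 hBp hd hB
    by_cases hp2 : p = 2
    · subst hp2
      obtain ⟨x, hx, hx'⟩ := ord_two hf g1 g2 g3
      exact hcon x hx hx'
    by_cases hp5 : p = 5
    · subst hp5
      obtain ⟨x, hx, hx'⟩ := ord_five hf g1 g2 g3
      exact hcon x hx hx'
    obtain ⟨g4, e, he⟩ := ord_large hf hs g1 hp hp2 hp3 hp5 g2 g3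
    exact h11 g4 e he
  obtain ⟨x, hx, hx'⟩ := hmain
  exact ⟨x, hx, hx'⟩

end Pool.Agent.Results.MP_d3b3d4_nt.Automorphisms
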